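import Pool.Agent.W978.QP.Stm

/-! QP-ROOT: the determinant has three distinct roots. -/

set_option autoImplicit false

namespace Pool.Agent.W372.QP

open Pool.Agent.W978.QP
open Pool.Agent.W978.QN (nm bx ct cp mnr wv Prim)

lemma cubic_fac (a b c d : ℂ) (ha : a ≠ 0) :
    ∃ x y z : ℂ, ∀ w, a * w ^ 3 + b * w ^ 2 + c * w + d = a * (w - x) * (w - y) * (w - z) := by
  obtain ⟨P, hP⟩ : ∃ P : Cubic ℂ, P = ⟨a, b, c, d⟩ := ⟨_, rfl⟩
  have haP : P.a ≠ 0 := by rw [hP]; exact ha
  obtain ⟨x, y, z, h3⟩ := (Cubic.splits_iff_roots_eq_three (φ := RingHom.id ℂ) haP).mp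
    (IsAlgClosed.splits _)
  have hb := Cubic.b_eq_three_roots haP h3
  have hc := Cubic.c_eq_three_roots haP h3
  have hd := Cubic.d_eq_three_roots haP h3
  simp only [hP, RingHom.id_apply] at hb hc hd
  refine ⟨x, y, z, fun w => ?_⟩
  rw [hb, hc, hd]
  ring

theorem mnr_zero (A : Matrix (Fin 3) (Fin 3) ℂ) (h : A.adjugate = 0) (k k' j j' : Fin 3) :
    mnr (fun x y => A x y) k k' j j' = 0 := by
  rw [Matrix.adjugate_fin_three] at h
  have h00 := congrFun (congrFun h 0) 0
  have h01 := congrFun (congrFun h 0) 1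
  have h02 := congrFun (congrFun h 0) 2
  have h10 := congrFun (congrFun h 1) 0
  have h11 := congrFun (congrFun h 1) 1
  have h12 := congrFun (congrFun h 1) 2
  have h20 := congrFun (congrFun h 2) 0
  have h21 := congrFun (congrFun h 2) 1
  have h22 := congrFun (congrFun h 2) 2
  simp only [Matrix.of_apply, Matrix.cons_val_zero, Matrix.cons_val_one, Matrix.cons_val,
    Matrix.zero_apply] at h00 h01 h02 h10 h11 h12 h20 h21 h22
  clear h
  fin_cases k <;> fin_cases k' <;> fin_cases j <;> fin_cases j' <;>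
    simp only [mnr, Fin.zero_eta, Fin.mk_one, Fin.reduceFinMk] <;>
    first
    | ring1
    | linear_combination h00
    | linear_combination h01
    | linear_combination h02
    | linear_combination h10
    | linear_combination h11
    | linear_combination h12
    | linear_combination h20
    | linear_combination h21
    | linear_combination h22
    | linear_combination -h00
    | linear_combination -h01
    | linear_combination -h02
    | linear_combination -h10
    | linear_combination -h11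
    | linear_combination -h12
    | linear_combination -h20
    | linear_combination -h21
    | linear_combination -h22

theorem trace_zero (N V : Matrix (Fin 3) (Fin 3) ℂ)
    (h : (N + V).det - (N - V).det = 2 * V.det) : ∑ w, ∑ u, N.adjugate w u * V u w = 0 := by
  rw [Matrix.det_fin_three, Matrix.det_fin_three, Matrix.det_fin_three] at h
  rw [Matrix.adjugate_fin_three]
  simp only [Fin.sum_univ_three, Matrix.of_apply, Matrix.cons_val_zero, Matrix.cons_val_one,
    Matrix.cons_val]
  simp only [Matrix.add_apply, Matrix.sub_apply] at h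
  linear_combination (1 / 2) * h

/-- the bilinear form with the first argument fixed -/
def NM (b : Fin 2 → Fin 3 → Fin 3 → ℤ) (p : Fin 2 → ℂ) : Matrix (Fin 3) (Fin 3) ℂ :=
  Matrix.of (mp b p)

lemma NM_lin (b : Fin 2 → Fin 3 → Fin 3 → ℤ) (p v : Fin 2 → ℂ) (z : ℂ) :
    NM b (fun i => p i + z * v i) = NM b p + z • NM b v := by
  ext k j
  simp only [NM, mp, Matrix.of_apply, Matrix.add_apply, Matrix.smul_apply, smul_eq_mul,
    Fin.sum_univ_two]
  ring

lemma fv_eq (b : Fin 2 → Fin 3 → Fin 3 → ℤ) (p : Fin 2 → ℂ) (q r : Fin 3 → ℂ) :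
    fv b p q r = ∑ k, ∑ j, NM b p k j * (r k * q j) := by
  simp only [fv, NM, mp, Matrix.of_apply, Fin.sum_univ_three, Fin.sum_univ_two]
  ring

lemma det_exp (A B : Matrix (Fin 3) (Fin 3) ℂ) : ∃ c2 c1 : ℂ, ∀ z : ℂ,
    (B + z • A).det = A.det * z ^ 3 + c2 * z ^ 2 + c1 * z + B.det := by
  refine ⟨((B + A).det + (B - A).det) / 2 - B.det,
    ((B + A).det - (B - A).det) / 2 - A.det, fun z => ?_⟩
  simp only [Matrix.det_fin_three, Matrix.add_apply, Matrix.sub_apply, Matrix.smul_apply,
    smul_eq_mul]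
  ring

/-- no double roots -/
lemma no_double (b : Fin 2 → Fin 3 → Fin 3 → ℤ) (hS : Smooth b) (hR : Rk2 b)
    (p1 p2 : Fin 2 → ℂ) (hind : p1 0 * p2 1 - p1 1 * p2 0 ≠ 0) (z0 z' : ℂ)
    (hfac : ∀ w : ℂ, (NM b p2 + w • NM b p1).det =
      (NM b p1).det * (w - z0) ^ 2 * (w - z')) : False := by
  obtain ⟨P, hP⟩ : ∃ P : Fin 2 → ℂ, P = fun i => p2 i + z0 * p1 i := ⟨_, rfl⟩
  have hPi : ∀ i, P i = p2 i + z0 * p1 i := fun i => by rw [hP]
  obtain ⟨N, hN⟩ : ∃ N, N = NM b P := ⟨_, rfl⟩
  have hN' : N = NM b p2 + z0 • NM b p1 := by rw [hN, hP, NM_lin]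
  have hD : P 0 * p1 1 - P 1 * p1 0 ≠ 0 := by
    intro h
    apply hind
    rw [hPi, hPi] at h
    linear_combination -h
  have hP0 : P ≠ 0 := by
    intro h
    apply hD
    rw [h]
    simp
  have hdet : N.det = 0 := by
    rw [hN', hfac]
    ring
  obtain ⟨k, k', j, j', hk⟩ := hR P hP0
  obtain ⟨A, hA⟩ : ∃ A, A = N.adjugate := ⟨_, rfl⟩
  have hA0 : A ≠ 0 := by
    intro h
    have h1 := mnr_zero N (by rw [← hA, h]) k k' j j'
    apply hk
    rw [hN] at h1
    exact h1
  obtain ⟨i0, j0, hij⟩ : ∃ i0 j0, A i0 j0 ≠ 0 := by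
    by_contra hcon
    push Not at hcon
    exact hA0 (by ext i j; exact hcon i j)
  have hadj : A.adjugate = 0 := by
    rw [hA, Matrix.adjugate_adjugate _ (by simp), hdet]
    simp
  have hNA : N * A = 0 := by rw [hA, Matrix.mul_adjugate, hdet, zero_smul]
  have hAN : A * N = 0 := by rw [hA, Matrix.adjugate_mul, hdet, zero_smul]
  have htr : ∑ w, ∑ u, A w u * NM b p1 u w = 0 := by
    rw [hA]
    apply trace_zero
    have e1 : N + NM b p1 = NM b p2 + (z0 + 1) • NM b p1 := by
      rw [hN', add_smul, one_smul, add_assoc]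
    have e2 : N - NM b p1 = NM b p2 + (z0 - 1) • NM b p1 := by
      rw [hN', sub_smul, one_smul, add_sub_assoc]
    rw [e1, e2, hfac, hfac]
    ring
  have hq0 : (fun w => A w j0) ≠ 0 := fun h => hij (congrFun h i0)
  have hr0 : (fun u => A i0 u) ≠ 0 := fun h => hij (congrFun h j0)
  -- F(P, q, v) = 0
  have hv3 : ∀ v, fv b P (fun w => A w j0) v = 0 := by
    intro v
    rw [fv_eq, ← hN]
    refine Finset.sum_eq_zero fun u _ => ?_
    have h4 : ∑ w, N u w * A w j0 = 0 := by
      have := congrFun (congrFun hNA u) j0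
      rwa [Matrix.mul_apply] at this
    have h5 : ∑ w, N u w * (v u * A w j0) = v u * ∑ w, N u w * A w j0 := by
      rw [Finset.mul_sum]
      exact Finset.sum_congr rfl fun w _ => by ring
    rw [h5, h4, mul_zero]
  have hv2 : ∀ v, fv b P v (fun u => A i0 u) = 0 := by
    intro v
    rw [fv_eq, ← hN, Finset.sum_comm]
    refine Finset.sum_eq_zero fun w _ => ?_
    have h4 : ∑ u, A i0 u * N u w = 0 := by
      have := congrFun (congrFun hAN i0) w
      rwa [Matrix.mul_apply] at this
    have h5 : ∑ u, N u w * (A i0 u * v w) = v w * ∑ u, A i0 u * N u w := by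
      rw [Finset.mul_sum]
      exact Finset.sum_congr rfl fun w _ => by ring
    rw [h5, h4, mul_zero]
  have hp1 : fv b p1 (fun w => A w j0) (fun u => A i0 u) = 0 := by
    rw [fv_eq]
    have hm : ∀ w u, A i0 u * A w j0 = A i0 j0 * A w u := by
      intro w u
      have := mnr_zero A hadj i0 w j0 u
      simp only [mnr] at this
      linear_combination -this
    have h3 : ∑ u, ∑ w, NM b p1 u w * (A i0 u * A w j0) =
        A i0 j0 * ∑ w, ∑ u, A w u * NM b p1 u w := by
      rw [Finset.mul_sum, Finset.sum_comm]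
      refine Finset.sum_congr rfl fun w _ => ?_
      rw [Finset.mul_sum]
      refine Finset.sum_congr rfl fun u _ => ?_
      rw [hm w u]; ring
    rw [h3, htr, mul_zero]
  have hv1 : ∀ v, fv b v (fun w => A w j0) (fun u => A i0 u) = 0 := by
    intro v
    obtain ⟨s, hs⟩ : ∃ s : Fin 2 → ℂ, ∀ p : Fin 2 → ℂ,
        fv b p (fun w => A w j0) (fun u => A i0 u) = p 0 * s 0 + p 1 * s 1 := by
      refine ⟨fun i => ∑ j, ∑ k, (b i j k : ℂ) * A j j0 * A i0 k, fun p => ?_⟩
      simp only [fv, Fin.sum_univ_two, Finset.mul_sum]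
      congr 1 <;> exact Finset.sum_congr rfl fun j _ => Finset.sum_congr rfl fun k _ => by ring
    have e1 := hv2 (fun w => A w j0)
    rw [hs] at e1 hp1 ⊢
    have : (P 0 * p1 1 - P 1 * p1 0) * (v 0 * s 0 + v 1 * s 1) = 0 := by
      linear_combination (v 0 * p1 1 - v 1 * p1 0) * e1 + (P 0 * v 1 - P 1 * v 0) * hp1
    exact (mul_eq_zero.mp this).resolve_left hD
  rcases hS P _ _ hP0 hq0 hr0 (hv1 P) with ⟨v, hv⟩ | ⟨v, hv⟩ | ⟨v, hv⟩
  · exact hv (hv1 v)
  · exact hv (hv2 v)
  · exact hv (hv3 v)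

theorem root : S_RK → S_DET → S_ROOT := by
  intro hRK hDET b hS
  have hR := hRK b hS
  obtain ⟨p1, hp1⟩ := hDET b hS
  have hp1' : (NM b p1).det ≠ 0 := hp1
  have hne : p1 ≠ 0 := by
    intro h
    apply hp1'
    have : NM b p1 = 0 := by
      ext k j
      simp [NM, mp, h]
    rw [this]
    simp
  obtain ⟨p2, hind⟩ : ∃ p2 : Fin 2 → ℂ, p1 0 * p2 1 - p1 1 * p2 0 ≠ 0 := by
    by_cases h0 : p1 0 = 0
    · refine ⟨![1, 0], ?_⟩
      have h1 : p1 1 ≠ 0 := by
        intro h1
        apply hne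
        ext i
        fin_cases i
        · exact h0
        · exact h1
      simpa [h0] using h1
    · refine ⟨![0, 1], ?_⟩
      simpa using h0
  obtain ⟨c2, c1, hexp⟩ := det_exp (NM b p1) (NM b p2)
  obtain ⟨x, y, z, hf⟩ := cubic_fac _ c2 c1 ((NM b p2).det) hp1'
  have hfac : ∀ w : ℂ, (NM b p2 + w • NM b p1).det =
      (NM b p1).det * (w - x) * (w - y) * (w - z) := fun w => (hexp w).trans (hf w)
  have hxy : x ≠ y := by
    rintro rfl
    exact no_double b hS hR p1 p2 hind x z (fun w => by rw [hfac]; ring)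
  have hxz : x ≠ z := by
    rintro rfl
    exact no_double b hS hR p1 p2 hind x y (fun w => by rw [hfac]; ring)
  have hyz : y ≠ z := by
    rintro rfl
    exact no_double b hS hR p1 p2 hind y x (fun w => by rw [hfac]; ring)
  have hinj : ∀ i j : Fin 3, i ≠ j → (![x, y, z] : Fin 3 → ℂ) i ≠ ![x, y, z] j := by
    intro i j hij
    fin_cases i <;> fin_cases j <;> simp at hij ⊢ <;>
      first
      | exact hxy
      | exact hxz
      | exact hyz
      | exact hxy.symm
      | exact hxz.symm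
      | exact hyz.symm
  refine ⟨fun i => fun m => p2 m + (![x, y, z] : Fin 3 → ℂ) i * p1 m, fun i => ?_,
    fun i j hij => ?_⟩
  · change (NM b _).det = 0
    rw [NM_lin, hfac]
    fin_cases i <;> simp
  · have h1 := sub_ne_zero.mpr (hinj i j hij)
    intro h
    apply mul_ne_zero h1 hind
    simp only at h
    linear_combination h

end Pool.Agent.W372.QP
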